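import Mathlib

/-!
Combinatorial part of the construction of two strongly Haar meager sets in `ℕ → ℤ` whose union
is not strongly Haar meager.
-/

namespace Pool.Agent.W924.SHM

/-- number of zeros of `x` before `n` -/
def dc (x : ℕ → ℤ) (n : ℕ) : ℕ := ((Finset.range n).filter (fun i => x i = 0)).card

/-- first witness: a tree-like compact set -/
def C0 : Set (ℕ → ℤ) := {x | ∀ n, 0 ≤ x n ∧ x n ≤ (n : ℤ) + 1 - (dc x n : ℤ)}

/-- second witness: a box -/
def C1 : Set (ℕ → ℤ) := {x | ∀ n, 0 ≤ x n ∧ x n ≤ (n : ℤ) + 1}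

/-- restriction to the first `n + 1` coordinates -/
def R (n : ℕ) (z : ℕ → ℤ) : Fin (n + 1) → ℤ := fun i => z i

abbrev Code : Type := (n : ℕ) → Finset (Fin (n + 1) → ℤ)

def InC (F : Code) (y : ℕ → ℤ) : Prop := ∀ n, R n y ∈ F n

def Top (F : Code) (y : ℕ → ℤ) : Prop :=
  ∀ k, ∃ l, k ≤ l ∧ ∃ n, l ≤ n ∧ ∀ n', n ≤ n' → ∀ z : ℕ → ℤ, R n' z ∈ F n' →
    (∀ j, j < l → z j = y j) → z n ≤ y n

def Win (F : Code) (i n : ℕ) (z : ℕ → ℤ) : Prop :=
  ∃ t : ℤ, t ≤ z i ∧ z i ≤ t + ((i : ℤ) + 1) ∧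
    ∀ v : ℤ, t ≤ v → v ≤ t + ((i : ℤ) + 1) → R n (Function.update z i v) ∈ F n

def Reg (F : Code) (y : ℕ → ℤ) : Prop :=
  ∃ N l0, ∀ i, N ≤ i → ∀ n, i ≤ n → ∀ z : ℕ → ℤ, R n z ∈ F n →
    (∀ j, j < l0 → z j = y j) → Win F i n z

def PW (F : Code) (N : ℕ) (y : ℕ → ℤ) : Prop := ∀ i, N ≤ i → ∀ n, i ≤ n → Win F i n y

def Phi0 (F : Code) (y : ℕ → ℤ) : Prop := InC F y ∧ Top F y ∧ Reg F y

def Phi1 (F : Code) (y : ℕ → ℤ) : Prop := InC F y ∧ ¬ ∃ N, PW F N y

theorem dc_le (x : ℕ → ℤ) (n : ℕ) : dc x n ≤ n := by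
  unfold dc
  refine (Finset.card_filter_le _ _).trans ?_
  simp

theorem dc_congr {x y : ℕ → ℤ} {n : ℕ} (h : ∀ j, j < n → x j = y j) : dc x n = dc y n := by
  unfold dc
  congr 1
  apply Finset.filter_congr
  intro i hi
  rw [h i (Finset.mem_range.1 hi)]

theorem dc_mono_n (x : ℕ → ℤ) {m n : ℕ} (h : m ≤ n) : dc x m ≤ dc x n := by
  unfold dc
  apply Finset.card_le_card
  intro i hi
  simp only [Finset.mem_filter, Finset.mem_range] at hi ⊢
  exact ⟨lt_of_lt_of_le hi.1 h, hi.2⟩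

theorem dc_anti {x y : ℕ → ℤ} {n : ℕ} (h : ∀ j, j < n → x j = 0 → y j = 0) :
    dc x n ≤ dc y n := by
  unfold dc
  apply Finset.card_le_card
  intro i hi
  simp only [Finset.mem_filter, Finset.mem_range] at hi ⊢
  exact ⟨hi.1, h i hi.1 hi.2⟩

/-- no zeros between `m` and `n` -/
theorem dc_stable {x : ℕ → ℤ} {m n : ℕ} (h : m ≤ n) (hz : ∀ j, m ≤ j → j < n → x j ≠ 0) :
    dc x n = dc x m := by
  unfold dc
  congr 1
  ext i
  simp only [Finset.mem_filter, Finset.mem_range]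
  constructor
  · rintro ⟨h1, h2⟩
    refine ⟨?_, h2⟩
    by_contra hc
    exact hz i (not_lt.1 hc) h1 h2
  · rintro ⟨h1, h2⟩
    exact ⟨lt_of_lt_of_le h1 h, h2⟩

/-- one zero fewer -/
theorem dc_update {x y : ℕ → ℤ} {n n1 : ℕ} (hn : n1 < n) (h0 : x n1 = 0) (h1 : y n1 ≠ 0)
    (h : ∀ j, j < n → j ≠ n1 → y j = x j) : dc y n + 1 = dc x n := by
  unfold dc
  have : (Finset.range n).filter (fun i => x i = 0)
      = insert n1 ((Finset.range n).filter (fun i => y i = 0)) := by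
    ext i
    simp only [Finset.mem_filter, Finset.mem_range, Finset.mem_insert]
    constructor
    · rintro ⟨h2, h3⟩
      by_cases hi : i = n1
      · exact Or.inl hi
      · exact Or.inr ⟨h2, by rw [h i h2 hi]; exact h3⟩
    · rintro (h2 | ⟨h2, h3⟩)
      · subst h2
        exact ⟨hn, h0⟩
      · refine ⟨h2, ?_⟩
        by_cases hi : i = n1
        · subst hi
          exact absurd h3 h1
        · rw [← h i h2 hi]; exact h3
  rw [this, Finset.card_insert_of_notMem]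
  simp only [Finset.mem_filter, Finset.mem_range, not_and]
  intro _
  exact h1

theorem R_congr {n : ℕ} {z z' : ℕ → ℤ} (h : ∀ j, j < n + 1 → z j = z' j) : R n z = R n z' := by
  funext i
  exact h i i.2

/-- Key lemma for the first witness. -/
theorem key0 (F : Code) (s x0 : ℕ → ℤ) (m : ℕ) (hx0 : x0 ∈ C0)
    (H : ∀ x ∈ C0, (∀ j, j < m → x j = x0 j) → ∀ n, ∃ x' ∈ C0, (∀ j, j < n → x' j = x j) ∧
      Phi0 F (x' + s)) : False := by
  -- a first point and its regularity data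
  obtain ⟨x1, hx1, hx1a, -, -, N, l0, hreg⟩ := H x0 hx0 (fun _ _ => rfl) m
  set m' : ℕ := max m (max N l0) with hm'
  have hmm : m ≤ m' := le_max_left _ _
  have hNm : N ≤ m' := le_trans (le_max_left _ _) (le_max_right _ _)
  have hlm : l0 ≤ m' := le_trans (le_max_right _ _) (le_max_right _ _)
  have base : ∀ x ∈ C0, (∀ j, j < m' → x j = x1 j) → ∀ n, ∃ x' ∈ C0,
      (∀ j, j < n → x' j = x j) ∧ Phi0 F (x' + s) := by
    intro x hx h n
    exact H x hx (fun j hj => by rw [h j (lt_of_lt_of_le hj hmm), hx1a j hj]) n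
  have leaf : ∀ x ∈ C0, (∀ j, j < m' → x j = x1 j) → ∀ n, R n (x + s) ∈ F n := by
    intro x hx h n
    obtain ⟨x', -, h1, h2, -⟩ := base x hx h (n + 1)
    rw [R_congr (z := x + s) (z' := x' + s) (fun j hj => by simp [h1 j hj])]
    exact h2 n
  have T0 : ∀ x ∈ C0, (∀ j, j < m' → x j = x1 j) → ∀ k, ∃ x' ∈ C0,
      (∀ j, j < m' → x' j = x1 j) ∧ (∀ j, j < k → x' j = x j) ∧
      ∃ l, k ≤ l ∧ ∃ n, l ≤ n ∧ ∀ n', n ≤ n' → ∀ z : ℕ → ℤ, R n' z ∈ F n' →
        (∀ j, j < l → z j = x' j + s j) → z n ≤ s n + ((n : ℤ) + 1 - (dc x' l : ℤ)) := by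
    intro x hx h k
    obtain ⟨x', hx', h1, -, h3, -⟩ := base x hx h (max k m')
    obtain ⟨l, hkl, n, hln, hb⟩ := h3 k
    refine ⟨x', hx', fun j hj => ?_, fun j hj => h1 j (lt_of_lt_of_le hj (le_max_left _ _)),
      l, hkl, n, hln, fun n' hn' z hz hag => ?_⟩
    · rw [h1 j (lt_of_lt_of_le hj (le_max_right _ _)), h j hj]
    · have h4 := hb n' hn' z hz (fun j hj => by simpa using hag j hj)
      have h5 := (hx' n).2
      have h6 : (dc x' l : ℤ) ≤ dc x' n := by exact_mod_cast dc_mono_n x' hln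
      simp only [Pi.add_apply] at h4
      linarith
  -- first top time
  obtain ⟨x2, hx2, hx2a, -, l1, hl1, n1, hn1, hQ⟩ := T0 x1 hx1 (fun _ _ => rfl) m'
  -- the node with a zero at `n1`
  let x3 : ℕ → ℤ := fun j => if j < l1 then x2 j else if j = n1 then 0 else 1
  have hx3lt : ∀ j, j < l1 → x3 j = x2 j := fun j hj => by simp [x3, hj]
  have hx3n1 : x3 n1 = 0 := by simp [x3, not_lt.2 hn1]
  have hx3 : x3 ∈ C0 := by
    intro j
    by_cases hj : j < l1
    · have e : dc x3 j = dc x2 j := dc_congr (fun i hi => hx3lt i (lt_trans hi hj))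
      rw [hx3lt j hj, e]
      exact hx2 j
    · have e : (dc x3 j : ℤ) ≤ j := by exact_mod_cast dc_le x3 j
      have hv : x3 j = 0 ∨ x3 j = 1 := by
        simp only [x3, hj, if_false]
        by_cases h : j = n1
        · left; simp [h]
        · right; simp [h]
      rcases hv with hv | hv <;> rw [hv] <;> constructor <;> linarith
  have hx3a : ∀ j, j < m' → x3 j = x1 j := fun j hj => by
    rw [hx3lt j (lt_of_lt_of_le hj hl1), hx2a j hj]
  obtain ⟨x4, hx4, hx4a, hx4b, l2, hl2, n2, hn2, hP⟩ := T0 x3 hx3 hx3a (n1 + 1)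
  have hx4n1 : x4 n1 = 0 := by rw [hx4b n1 (Nat.lt_succ_self n1), hx3n1]
  have hn1l2 : n1 < l2 := hl2
  have hn12 : n1 < n2 := lt_of_lt_of_le hn1l2 hn2
  have hdl2 : (dc x4 l2 : ℤ) ≤ l2 := by exact_mod_cast dc_le x4 l2
  have hn2' : (l2 : ℤ) ≤ n2 := by exact_mod_cast hn2
  let x5 : ℕ → ℤ := fun j => if j < l2 then (if j = n1 then 1 else x4 j)
    else if j = n2 then (n2 : ℤ) + 2 - (dc x4 l2 : ℤ) else 1
  have hx5n1 : x5 n1 = 1 := by simp [x5, hn1l2]
  have hx5lt : ∀ j, j < l2 → j ≠ n1 → x5 j = x4 j := fun j hj hj' => by simp [x5, hj, hj']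
  have hx5n2 : x5 n2 = (n2 : ℤ) + 2 - (dc x4 l2 : ℤ) := by simp [x5, not_lt.2 hn2]
  have hx5ge : ∀ j, l2 ≤ j → x5 j ≠ 0 := by
    intro j hj
    have hj' := not_lt.2 hj
    by_cases h : j = n2
    · rw [h, hx5n2]
      intro hc
      linarith
    · simp [x5, hj', h]
  have hdc5 : dc x5 n2 + 1 = dc x4 l2 := by
    rw [dc_stable hn2 (fun j h1 _ => hx5ge j h1)]
    exact dc_update hn1l2 hx4n1 (by rw [hx5n1]; norm_num) (fun j hj hj' => hx5lt j hj hj')
  have hx5 : x5 ∈ C0 := by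
    intro j
    by_cases hj : j < l2
    · by_cases hjn : j = n1
      · rw [hjn, hx5n1]
        have e : (dc x5 n1 : ℤ) ≤ n1 := by exact_mod_cast dc_le x5 n1
        constructor <;> linarith
      · rw [hx5lt j hj hjn]
        have e : (dc x5 j : ℤ) ≤ dc x4 j := by
          have : dc x5 j ≤ dc x4 j := by
            apply dc_anti
            intro i hi h0
            by_cases hin : i = n1
            · rw [hin, hx4n1]
            · rw [← hx5lt i (lt_trans hi hj) hin]; exact h0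
          exact_mod_cast this
        have h6 := hx4 j
        constructor
        · exact h6.1
        · linarith [h6.2]
    · by_cases hjn : j = n2
      · have hdc5' : (dc x5 n2 : ℤ) + 1 = dc x4 l2 := by exact_mod_cast hdc5
        rw [hjn, hx5n2]
        constructor <;> linarith
      · have e : (dc x5 j : ℤ) ≤ j := by exact_mod_cast dc_le x5 j
        have hv : x5 j = 1 := by simp [x5, hj, hjn]
        rw [hv]
        constructor <;> linarith
  have hx5a : ∀ j, j < m' → x5 j = x1 j := fun j hj => by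
    have hj1 : j < n1 := lt_of_lt_of_le hj (le_trans hl1 hn1)
    rw [hx5lt j (lt_trans hj1 hn1l2) (ne_of_lt hj1), hx4a j hj]
  -- the window at `n1`
  have hw := hreg n1 (le_trans hNm (le_trans hl1 hn1)) n2 hn12.le (x5 + s) (leaf x5 hx5 hx5a n2)
    (fun j hj => by simp [hx5a j (lt_of_lt_of_le hj hlm)])
  obtain ⟨t, ht1, ht2, ht3⟩ := hw
  have hwn1 : (x5 + s) n1 = 1 + s n1 := by simp [hx5n1]
  rw [hwn1] at ht1 ht2
  have hjx2 : ∀ j, j < l1 → x5 j = x2 j := by
    intro j hj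
    have hj1 : j < n1 := lt_of_lt_of_le hj hn1
    rw [hx5lt j (lt_trans hj1 hn1l2) (ne_of_lt hj1), hx4b j (lt_trans hj1 (Nat.lt_succ_self n1)),
      hx3lt j hj]
  have h7 := hQ n2 hn12.le _ (ht3 (t + ((n1 : ℤ) + 1)) (by linarith [Int.natCast_nonneg n1]) le_rfl)
    (fun j hj => by
      have hj1 : j ≠ n1 := ne_of_lt (lt_of_lt_of_le hj hn1)
      simp [Function.update_of_ne hj1, hjx2 j hj])
  simp only [Function.update_self] at h7
  have h8 : (0 : ℤ) ≤ (dc x2 l1 : ℤ) := Int.natCast_nonneg _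
  have h9 := hP n2 le_rfl _ (ht3 (s n1) (by linarith) (by linarith))
    (fun j hj => by
      by_cases hjn : j = n1
      · subst hjn
        simp [hx4n1]
      · simp [Function.update_of_ne hjn, hx5lt j hj hjn])
  rw [Function.update_of_ne (ne_of_gt hn12)] at h9
  simp only [Pi.add_apply, hx5n2] at h9
  linarith

/-- Key lemma for the second witness. -/
theorem key1 (F : Code) (s x0 : ℕ → ℤ) (m : ℕ) (hx0 : x0 ∈ C1)
    (H : ∀ x ∈ C1, (∀ j, j < m → x j = x0 j) → ∀ n, ∃ x' ∈ C1, (∀ j, j < n → x' j = x j) ∧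
      Phi1 F (x' + s)) : False := by
  have leaf : ∀ x ∈ C1, (∀ j, j < m → x j = x0 j) → ∀ n, R n (x + s) ∈ F n := by
    intro x hx h n
    obtain ⟨x', -, h1, h2, -⟩ := H x hx h (n + 1)
    rw [R_congr (z := x + s) (z' := x' + s) (fun j hj => by simp [h1 j hj])]
    exact h2 n
  obtain ⟨x1, hx1, hx1a, -, h2⟩ := H x0 hx0 (fun _ _ => rfl) m
  apply h2
  refine ⟨m, fun i hi n hn => ⟨s i, ?_, ?_, fun v hv1 hv2 => ?_⟩⟩
  · have := (hx1 i).1
    simp only [Pi.add_apply]
    linarith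
  · have := (hx1 i).2
    simp only [Pi.add_apply]
    linarith
  · have e : Function.update (x1 + s) i v = Function.update x1 i (v - s i) + s := by
      funext j
      by_cases hj : j = i
      · subst hj
        simp
      · simp [Function.update_of_ne hj]
    rw [e]
    apply leaf
    · intro j
      by_cases hj : j = i
      · subst hj
        simp only [Function.update_self]
        constructor <;> linarith
      · rw [Function.update_of_ne hj]
        exact hx1 j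
    · intro j hj
      rw [Function.update_of_ne (ne_of_lt (lt_of_lt_of_le hj hi)), hx1a j hj]

end Pool.Agent.W924.SHM
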