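import Pool.Agent.W924.SHM.Comb

/-!
Topological part: the two Borel sets, their witnesses, and the union.
-/

open Set Topology

namespace Pool.Agent.W924.SHM

/-- `A` is strongly Haar meager: there are a Borel set `B ⊇ A` and a nonempty compact set `C`
such that `(B + g) ∩ C` is meager in `C` for every `g`. -/
def StronglyHaarMeager {G : Type*} [TopologicalSpace G] [AddCommGroup G] (A : Set G) : Prop :=
  ∃ B : Set G, @MeasurableSet G (borel G) B ∧ A ⊆ B ∧ ∃ C : Set G, IsCompact C ∧ C.Nonempty ∧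
    ∀ g : G, IsMeagre {c : C | ∃ b ∈ B, (c : G) = b + g}

theorem exists_cyl {C : Set (ℕ → ℤ)} {U : Set C} {x0 : C} (hU : U ∈ 𝓝 x0) :
    ∃ m : ℕ, ∀ x : C, (∀ j, j < m → x.1 j = x0.1 j) → x ∈ U := by
  rw [nhds_subtype_eq_comap, Filter.mem_comap] at hU
  obtain ⟨V, hV, hVU⟩ := hU
  obtain ⟨t, ⟨x, n, rfl⟩, h1, h2⟩ :=
    (PiNat.isTopologicalBasis_cylinders (fun _ : ℕ => ℤ)).mem_nhds_iff.1 hV
  refine ⟨n, fun y hy => hVU (h2 ?_)⟩
  rw [PiNat.mem_cylinder_iff] at h1 ⊢
  intro i hi
  rw [hy i hi, h1 i hi]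

theorem isOpen_cyl (C : Set (ℕ → ℤ)) (x0 : ℕ → ℤ) (m : ℕ) :
    IsOpen {x : C | ∀ j, j < m → x.1 j = x0 j} := by
  have h := (PiNat.isOpen_cylinder (fun _ : ℕ => ℤ) x0 m).preimage
    (continuous_subtype_val (p := fun x => x ∈ C))
  exact h

theorem isOpen_fin (P : (ℕ → ℤ) → Prop) (M : ℕ)
    (h : ∀ w w' : ℕ → ℤ, (∀ j, j < M → w' j = w j) → P w → P w') : IsOpen {w | P w} := by
  rw [isOpen_iff_mem_nhds]
  intro w hw
  have h1 := (PiNat.isOpen_cylinder (fun _ : ℕ => ℤ) w M).mem_nhds (PiNat.self_mem_cylinder w M)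
  refine Filter.mem_of_superset h1 (fun w' hw' => ?_)
  rw [PiNat.mem_cylinder_iff] at hw'
  exact h w w' hw' hw

theorem isClosed_fin (P : (ℕ → ℤ) → Prop) (M : ℕ)
    (h : ∀ w w' : ℕ → ℤ, (∀ j, j < M → w' j = w j) → P w → P w') : IsClosed {w | P w} := by
  rw [← isOpen_compl_iff]
  refine isOpen_fin (fun w => ¬ P w) M (fun w w' hw hP hP' => hP ?_)
  exact h w' w (fun j hj => (hw j hj).symm) hP'

theorem meas_fin (P : (ℕ → ℤ) → Prop) (M : ℕ)
    (h : ∀ w w' : ℕ → ℤ, (∀ j, j < M → w' j = w j) → P w → P w') : Measurable P :=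
  measurableSet_setOfPred.1 (isOpen_fin P M h).measurableSet

theorem mem_closure_cyl {C : Set (ℕ → ℤ)} {Z : Set C} {x : C} (h : x ∈ closure Z) (n : ℕ) :
    ∃ x' ∈ Z, ∀ j, j < n → x'.1 j = x.1 j := by
  rw [mem_closure_iff] at h
  obtain ⟨y, hy, hyZ⟩ := h _ (isOpen_cyl C x.1 n) (fun _ _ => rfl)
  exact ⟨y, hyZ, hy⟩

theorem nwd_of (C : Set (ℕ → ℤ)) (Z : Set C)
    (h : ∀ (x0 : C) (m : ℕ), ¬ ∀ x : C, (∀ j, j < m → x.1 j = x0.1 j) →
      ∀ n, ∃ x' ∈ Z, ∀ j, j < n → x'.1 j = x.1 j) : IsNowhereDense Z := by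
  rw [IsNowhereDense, Set.eq_empty_iff_forall_notMem]
  intro x0 hx0
  obtain ⟨m, hm⟩ := exists_cyl (mem_interior_iff_mem_nhds.1 hx0)
  exact h x0 m (fun x hx n => mem_closure_cyl (hm x hx) n)

/-! ### Coding -/

theorem exists_sep (S : Type) [Countable S] (r : S → ℕ) (p : ℕ) :
    ∃ G : S → ℤ, ∀ a b, a ≠ b → (p : ℤ) + r a + r b < |G a - G b| := by
  classical
  obtain ⟨f, hf⟩ := exists_injective_nat S
  let q : ℕ → ℕ := fun k => if h : ∃ a, f a = k then r h.choose else 0
  have hq : ∀ a, q (f a) = r a := by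
    intro a
    have h : ∃ b, f b = f a := ⟨a, rfl⟩
    have e : q (f a) = r h.choose := dif_pos h
    rw [e, hf h.choose_spec]
  let T : ℕ → ℕ := fun k => ∑ i ∈ Finset.range k, (p + 1 + 2 * q i)
  have hT : ∀ j k, j < k → T j + (p + 1 + 2 * q j) ≤ T k := by
    intro j k hjk
    have e : T (j + 1) = T j + (p + 1 + 2 * q j) := Finset.sum_range_succ _ _
    rw [← e]
    exact Finset.sum_le_sum_of_subset (Finset.range_subset_range.2 hjk)
  have key : ∀ a b, f a < f b → (p : ℤ) + r a + r b <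
      ((T (f b) : ℤ) + q (f b)) - ((T (f a) : ℤ) + q (f a)) := by
    intro a b hab
    have h1 : (T (f a) : ℤ) + (p + 1 + 2 * q (f a)) ≤ T (f b) := by
      exact_mod_cast hT _ _ hab
    rw [hq a] at h1
    rw [hq a, hq b]
    linarith
  refine ⟨fun a => (T (f a) : ℤ) + q (f a), fun a b hab => ?_⟩
  rcases lt_trichotomy (f a) (f b) with h | h | h
  · rw [abs_sub_comm]
    exact lt_of_lt_of_le (key a b h) (le_abs_self _)
  · exact absurd (hf h) hab
  · have := key b a h
    refine lt_of_lt_of_le ?_ (le_abs_self _)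
    linarith

def rr (n : ℕ) (F : Finset (Fin (n + 1) → ℤ)) : ℕ := F.sup (fun ζ => (ζ (Fin.last n)).natAbs)

theorem rr_le {n : ℕ} {F : Finset (Fin (n + 1) → ℤ)} {z : ℕ → ℤ} (h : R n z ∈ F) :
    |z n| ≤ (rr n F : ℤ) := by
  have h1 : (fun ζ : Fin (n + 1) → ℤ => (ζ (Fin.last n)).natAbs) (R n z) ≤ rr n F :=
    Finset.le_sup (f := fun ζ : Fin (n + 1) → ℤ => (ζ (Fin.last n)).natAbs) h
  have h2 : (z n).natAbs ≤ rr n F := h1
  rw [Int.abs_eq_natAbs]
  exact_mod_cast h2

noncomputable def GG (n : ℕ) : Finset (Fin (n + 1) → ℤ) → ℤ :=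
  Classical.choose (exists_sep (Finset (Fin (n + 1) → ℤ)) (rr n) (n + 1))

theorem GG_sep (n : ℕ) (a b : Finset (Fin (n + 1) → ℤ)) (h : a ≠ b) :
    ((n : ℤ) + 1) + rr n a + rr n b < |GG n a - GG n b| := by
  have := Classical.choose_spec (exists_sep (Finset (Fin (n + 1) → ℤ)) (rr n) (n + 1)) a b h
  push_cast at this
  exact this

open Classical in
noncomputable def dF (n : ℕ) (a : ℤ) : Finset (Fin (n + 1) → ℤ) :=
  if h : ∃ F, |a - GG n F| ≤ rr n F then h.choose else ∅

theorem dF_eq {n : ℕ} {a : ℤ} {F : Finset (Fin (n + 1) → ℤ)} (h : |a - GG n F| ≤ rr n F) :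
    dF n a = F := by
  have hex : ∃ F, |a - GG n F| ≤ rr n F := ⟨F, h⟩
  have e : dF n a = hex.choose := by
    unfold dF
    rw [dif_pos hex]
  rw [e]
  have h2 := hex.choose_spec
  by_contra hne
  have h3 := GG_sep n _ _ hne
  have h4 : |GG n hex.choose - GG n F| ≤ |a - GG n hex.choose| + |a - GG n F| := by
    have e : GG n hex.choose - GG n F = (a - GG n F) - (a - GG n hex.choose) := by ring
    rw [e]
    have := abs_sub (a - GG n F) (a - GG n hex.choose)
    linarith
  have h5 : (0 : ℤ) ≤ n := Int.natCast_nonneg n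
  linarith

def Valid (w : ℕ → ℤ) : Prop := ∀ n, |w n - GG n (dF n (w n))| ≤ rr n (dF n (w n))

noncomputable def cd (w : ℕ → ℤ) : Code := fun n => dF n (w n)

noncomputable def yy (w : ℕ → ℤ) : ℕ → ℤ := fun n => w n - GG n (dF n (w n))

def A0 : Set (ℕ → ℤ) := {w | Valid w ∧ Phi0 (cd w) (yy w)}

def A1 : Set (ℕ → ℤ) := {w | Valid w ∧ Phi1 (cd w) (yy w)}

/-! ### Measurability -/

theorem cd_congr {w w' : ℕ → ℤ} {n : ℕ} (h : w' n = w n) : cd w' n = cd w n := by
  unfold cd; rw [h]

theorem yy_congr {w w' : ℕ → ℤ} {n : ℕ} (h : w' n = w n) : yy w' n = yy w n := by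
  unfold yy; rw [h]

theorem meas_valid : Measurable Valid := by
  unfold Valid
  refine Measurable.forall (fun n => ?_)
  refine meas_fin _ (n + 1) (fun w w' h hP => ?_)
  rw [h n (Nat.lt_succ_self n)]
  exact hP

theorem meas_inC : Measurable (fun w => InC (cd w) (yy w)) := by
  unfold InC
  refine Measurable.forall (fun n => ?_)
  refine meas_fin _ (n + 1) (fun w w' h hP => ?_)
  rw [cd_congr (h n (Nat.lt_succ_self n)),
    R_congr (z := yy w') (z' := yy w) (fun j hj => yy_congr (h j hj))]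
  exact hP

theorem meas_top : Measurable (fun w => Top (cd w) (yy w)) := by
  unfold Top
  refine Measurable.forall (fun k => Measurable.exists (fun l => ?_))
  refine Measurable.and measurable_const (Measurable.exists (fun n => ?_))
  by_cases hln : l ≤ n
  · refine Measurable.and measurable_const (Measurable.forall (fun n' => ?_))
    by_cases hn : n ≤ n'
    · refine meas_fin _ (n' + 1) (fun w w' h hP _ z hz hag => ?_)
      rw [cd_congr (h n' (Nat.lt_succ_self n'))] at hz
      rw [yy_congr (h n (lt_of_le_of_lt hn (Nat.lt_succ_self n')))]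
      refine hP hn z hz (fun j hj => ?_)
      rw [hag j hj]
      exact yy_congr (h j (lt_of_lt_of_le hj (le_trans hln (le_trans hn (Nat.le_succ n')))))
    · have e : (fun w : ℕ → ℤ => n ≤ n' → ∀ z : ℕ → ℤ, R n' z ∈ cd w n' →
        (∀ j, j < l → z j = yy w j) → z n ≤ yy w n) = fun _ => True := by
        funext w
        simp [hn]
      rw [e]
      exact measurable_const
  · have e : (fun w : ℕ → ℤ => l ≤ n ∧ ∀ n', n ≤ n' → ∀ z : ℕ → ℤ, R n' z ∈ cd w n' →
        (∀ j, j < l → z j = yy w j) → z n ≤ yy w n) = fun _ => False := by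
      funext w
      simp [hln]
    rw [e]
    exact measurable_const

theorem meas_reg : Measurable (fun w => Reg (cd w) (yy w)) := by
  unfold Reg
  refine Measurable.exists (fun N => Measurable.exists (fun l0 => Measurable.forall (fun i => ?_)))
  refine Measurable.imp measurable_const (Measurable.forall (fun n => ?_))
  refine Measurable.imp measurable_const ?_
  refine meas_fin _ (max (n + 1) l0) (fun w w' h hP z hz hag => ?_)
  have hn : n < max (n + 1) l0 := lt_of_lt_of_le (Nat.lt_succ_self n) (le_max_left _ _)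
  rw [cd_congr (h n hn)] at hz
  have h1 := hP z hz (fun j hj => by
    rw [hag j hj]
    exact yy_congr (h j (lt_of_lt_of_le hj (le_max_right _ _))))
  unfold Win at h1 ⊢
  rw [cd_congr (h n hn)]
  exact h1

theorem meas_pw : Measurable (fun w => ∃ N, PW (cd w) N (yy w)) := by
  unfold PW
  refine Measurable.exists (fun N => Measurable.forall (fun i => ?_))
  refine Measurable.imp measurable_const (Measurable.forall (fun n => ?_))
  by_cases hin : i ≤ n
  · refine Measurable.imp measurable_const ?_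
    refine meas_fin _ (n + 1) (fun w w' h hP => ?_)
    obtain ⟨t, h1, h2, h3⟩ := hP
    have hi : i < n + 1 := lt_of_le_of_lt hin (Nat.lt_succ_self n)
    refine ⟨t, ?_, ?_, fun v hv1 hv2 => ?_⟩
    · rw [yy_congr (h i hi)]; exact h1
    · rw [yy_congr (h i hi)]; exact h2
    · rw [cd_congr (h n (Nat.lt_succ_self n))]
      have e : R n (Function.update (yy w') i v) = R n (Function.update (yy w) i v) := by
        apply R_congr
        intro j hj
        by_cases hji : j = i
        · subst hji; simp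
        · rw [Function.update_of_ne hji, Function.update_of_ne hji, yy_congr (h j hj)]
      rw [e]
      exact h3 v hv1 hv2
  · have e : (fun w : ℕ → ℤ => i ≤ n → Win (cd w) i n (yy w)) = fun _ => True := by
      funext w
      simp [hin]
    rw [e]
    exact measurable_const

theorem A0_borel : @MeasurableSet (ℕ → ℤ) (borel (ℕ → ℤ)) A0 := by
  rw [← BorelSpace.measurable_eq (α := ℕ → ℤ)]
  exact measurableSet_setOfPred.2
    (Measurable.and meas_valid (Measurable.and meas_inC (Measurable.and meas_top meas_reg)))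

theorem A1_borel : @MeasurableSet (ℕ → ℤ) (borel (ℕ → ℤ)) A1 := by
  rw [← BorelSpace.measurable_eq (α := ℕ → ℤ)]
  exact measurableSet_setOfPred.2
    (Measurable.and meas_valid (Measurable.and meas_inC (Measurable.not meas_pw)))

/-! ### The sets are strongly Haar meager -/

theorem meagre_aux (C : Set (ℕ → ℤ)) (Phi : Code → (ℕ → ℤ) → Prop)
    (hC : ∀ x ∈ C, ∀ n, 0 ≤ x n ∧ x n ≤ (n : ℤ) + 1)
    (key : ∀ (F : Code) (s x0 : ℕ → ℤ) (m : ℕ), x0 ∈ C →
      (∀ x ∈ C, (∀ j, j < m → x j = x0 j) → ∀ n, ∃ x' ∈ C, (∀ j, j < n → x' j = x j) ∧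
        Phi F (x' + s)) → False)
    (g : ℕ → ℤ) :
    IsMeagre {c : C | ∃ b ∈ {w | Valid w ∧ Phi (cd w) (yy w)}, (c : ℕ → ℤ) = b + g} := by
  set Z : Set C := {c : C | ∃ b ∈ {w | Valid w ∧ Phi (cd w) (yy w)}, (c : ℕ → ℤ) = b + g} with hZ
  rcases Set.eq_empty_or_nonempty Z with h0 | ⟨c0, b0, ⟨hv0, hp0⟩, hc0⟩
  · rw [h0]; exact IsMeagre.empty
  · let F : Code := cd b0
    let s : ℕ → ℤ := fun n => - g n - GG n (F n)
    have hsub : Z ⊆ {c : C | Phi F (c.1 + s)} := by
      rintro c ⟨b, ⟨hv, hp⟩, hc⟩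
      have hcd : ∀ n, cd b n = F n := by
        intro n
        by_contra hne
        have h1 := GG_sep n _ _ hne
        have h2 : |b n - GG n (cd b n)| ≤ rr n (cd b n) := hv n
        have h3 : |b0 n - GG n (F n)| ≤ rr n (F n) := hv0 n
        have h4 : |b n - b0 n| ≤ (n : ℤ) + 1 := by
          have e1 : b n = c.1 n - g n := by rw [hc]; simp
          have e2 : b0 n = c0.1 n - g n := by rw [hc0]; simp
          have e3 : b n - b0 n = c.1 n - c0.1 n := by rw [e1, e2]; ring
          rw [e3, abs_le]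
          have h5 := hC c.1 c.2 n
          have h6 := hC c0.1 c0.2 n
          constructor <;> linarith [h5.1, h5.2, h6.1, h6.2]
        have h7 : |GG n (cd b n) - GG n (F n)| ≤
            |b n - GG n (cd b n)| + |b n - b0 n| + |b0 n - GG n (F n)| := by
          rw [abs_le] at *
          have a1 := le_abs_self (b n - GG n (cd b n))
          have a2 := neg_abs_le (b n - GG n (cd b n))
          have a3 := le_abs_self (b n - b0 n)
          have a4 := neg_abs_le (b n - b0 n)
          have a5 := le_abs_self (b0 n - GG n (F n))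
          have a6 := neg_abs_le (b0 n - GG n (F n))
          constructor <;> linarith
        linarith
      have hcd' : cd b = F := funext hcd
      have hyy : yy b = c.1 + s := by
        funext n
        have e1 : b n = c.1 n - g n := by rw [hc]; simp
        have e2 : yy b n = b n - GG n (cd b n) := rfl
        rw [e2, hcd n, e1]
        simp only [Pi.add_apply, s]
        ring
      show Phi F (c.1 + s)
      rw [← hcd', ← hyy]
      exact hp
    refine IsMeagre.mono hsub (IsNowhereDense.isMeagre (nwd_of C _ (fun x0 m hx => ?_)))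
    refine key F s x0.1 m x0.2 (fun x hxC hag n => ?_)
    obtain ⟨x', h1, h2⟩ := hx ⟨x, hxC⟩ hag n
    exact ⟨x'.1, x'.2, h2, h1⟩

theorem C1_compact : IsCompact C1 := by
  have e : C1 = Set.pi Set.univ (fun n : ℕ => Set.Icc (0 : ℤ) ((n : ℤ) + 1)) := by
    ext x
    rw [Set.mem_univ_pi]
    exact Iff.rfl
  rw [e]
  exact isCompact_univ_pi (fun n => (Set.finite_Icc _ _).isCompact)

theorem C0_compact : IsCompact C0 := by
  refine C1_compact.of_isClosed_subset ?_ ?_
  · have e : C0 = ⋂ n : ℕ, {x : ℕ → ℤ | 0 ≤ x n ∧ x n ≤ (n : ℤ) + 1 - (dc x n : ℤ)} := by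
      ext x
      simp [C0]
    rw [e]
    refine isClosed_iInter (fun n => ?_)
    refine isClosed_fin _ (n + 1) (fun w w' h hP => ?_)
    rw [h n (Nat.lt_succ_self n), dc_congr (fun j hj => h j (Nat.lt_succ_of_lt hj))]
    exact hP
  · intro x hx n
    have := hx n
    have h2 : (0 : ℤ) ≤ dc x n := Int.natCast_nonneg _
    exact ⟨this.1, by linarith [this.2]⟩

theorem one_mem_C0 : (fun _ => 1 : ℕ → ℤ) ∈ C0 := by
  intro n
  have : (dc (fun _ => 1 : ℕ → ℤ) n : ℤ) ≤ n := by exact_mod_cast dc_le _ n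
  constructor
  · norm_num
  · linarith

theorem A0_shm : StronglyHaarMeager A0 := by
  refine ⟨A0, A0_borel, subset_rfl, C0, C0_compact, ⟨_, one_mem_C0⟩, fun g => ?_⟩
  refine meagre_aux C0 Phi0 (fun x hx n => ?_) key0 g
  have := hx n
  have h2 : (0 : ℤ) ≤ dc x n := Int.natCast_nonneg _
  exact ⟨this.1, by linarith [this.2]⟩

theorem A1_shm : StronglyHaarMeager A1 := by
  refine ⟨A1, A1_borel, subset_rfl, C1, C1_compact, ⟨fun _ => 0, fun n => ?_⟩, fun g => ?_⟩
  · have : (0 : ℤ) ≤ n := Int.natCast_nonneg n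
    exact ⟨le_rfl, by linarith⟩
  · exact meagre_aux C1 Phi1 (fun x hx n => hx n) key1 g

end Pool.Agent.W924.SHM
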