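import Pool.Agent.W924.SHM.Topo

/-!
The union of the two sets is not strongly Haar meager.
-/

open Set Topology

namespace Pool.Agent.W924.SHM

/-- exact finite projections of a compact set -/
theorem exists_code (K : Set (ℕ → ℤ)) (hK : IsCompact K) :
    ∃ F : Code, ∀ n (ζ : Fin (n + 1) → ℤ), ζ ∈ F n ↔ ∃ z ∈ K, R n z = ζ := by
  have hfin : ∀ n, (R n '' K).Finite := by
    intro n
    have hc : Continuous (R n) := continuous_pi (fun i => continuous_apply (i : ℕ))
    exact (hK.image hc).finite_of_discrete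
  refine ⟨fun n => (hfin n).toFinset, fun n ζ => ?_⟩
  rw [Set.Finite.mem_toFinset]
  exact Iff.rfl

theorem union_large (K : Set (ℕ → ℤ)) (hK : IsCompact K) (hne : K.Nonempty) (F : Code)
    (hF : ∀ n (ζ : Fin (n + 1) → ℤ), ζ ∈ F n ↔ ∃ z ∈ K, R n z = ζ) :
    ¬ IsMeagre {c : K | Phi0 F c.1 ∨ Phi1 F c.1} := by
  intro hme
  have : CompactSpace K := isCompact_iff_compactSpace.1 hK
  have : Nonempty K := hne.to_subtype
  have hin : ∀ c : K, InC F c.1 := fun c n => (hF n _).2 ⟨c.1, c.2, rfl⟩
  -- the sets E N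
  let E : ℕ → Set K := fun N => {c : K | PW F N c.1}
  have hEclosed : ∀ N, IsClosed (E N) := by
    intro N
    have e : E N = ⋂ i : ℕ, ⋂ _ : N ≤ i, ⋂ n : ℕ, ⋂ _ : i ≤ n, {c : K | Win F i n c.1} := by
      ext c
      simp [E, PW]
    rw [e]
    refine isClosed_iInter (fun i => isClosed_iInter (fun _ => isClosed_iInter (fun n =>
      isClosed_iInter (fun hin => ?_))))
    have h1 : IsClosed {w : ℕ → ℤ | Win F i n w} := by
      refine isClosed_fin _ (n + 1) (fun w w' h hP => ?_)
      obtain ⟨t, h1, h2, h3⟩ := hP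
      have hi : i < n + 1 := lt_of_le_of_lt hin (Nat.lt_succ_self n)
      refine ⟨t, ?_, ?_, fun v hv1 hv2 => ?_⟩
      · rw [h i hi]; exact h1
      · rw [h i hi]; exact h2
      · have e : R n (Function.update w' i v) = R n (Function.update w i v) := by
          apply R_congr
          intro j hj
          by_cases hji : j = i
          · subst hji; simp
          · rw [Function.update_of_ne hji, Function.update_of_ne hji, h j hj]
        rw [e]
        exact h3 v hv1 hv2
    exact h1.preimage continuous_subtype_val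
  -- some E N has interior
  have hN : ∃ N, (interior (E N)).Nonempty := by
    by_contra hno
    have hno' : ∀ N, interior (E N) = ∅ := fun N => by
      by_contra hc
      exact hno ⟨N, Set.nonempty_iff_ne_empty.2 hc⟩
    have h1 : ∀ N, IsMeagre (E N) := fun N =>
      ((hEclosed N).isNowhereDense_iff.2 (hno' N)).isMeagre
    have h2 : IsMeagre (Set.univ : Set K) := by
      refine IsMeagre.mono ?_ (hme.union (isMeagre_iUnion h1))
      intro c _
      by_cases hc : ∃ N, PW F N c.1
      · obtain ⟨N, hN⟩ := hc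
        exact Or.inr (Set.mem_iUnion.2 ⟨N, hN⟩)
      · exact Or.inl (Or.inr ⟨hin c, hc⟩)
    exact not_isMeagre_of_isOpen isOpen_univ Set.univ_nonempty h2
  obtain ⟨N, y0, hy0⟩ := hN
  obtain ⟨l0, hl0⟩ := exists_cyl (mem_interior_iff_mem_nhds.1 hy0)
  let V : Set K := {c : K | ∀ j, j < l0 → c.1 j = y0.1 j}
  have hVo : IsOpen V := isOpen_cyl K y0.1 l0
  have hVne : V.Nonempty := ⟨y0, fun _ _ => rfl⟩
  have hreg : ∀ c ∈ V, Reg F c.1 := by
    intro c hc
    refine ⟨max N l0, l0, fun i hi n hn z hz hag => ?_⟩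
    obtain ⟨z', hz'K, hz'⟩ := (hF n _).1 hz
    have hzz : ∀ j, j < n + 1 → z' j = z j := fun j hj => congrFun hz' ⟨j, hj⟩
    have hln : l0 ≤ n := le_trans (le_trans (le_max_right _ _) hi) hn
    have h1 : (⟨z', hz'K⟩ : K) ∈ E N := by
      apply hl0
      intro j hj
      show z' j = y0.1 j
      rw [hzz j (lt_of_lt_of_le hj (le_trans hln (Nat.le_succ n))), hag j hj]
      exact hc j hj
    obtain ⟨t, h2, h3, h4⟩ := h1 i (le_trans (le_max_left _ _) hi) n hn
    have hi' : i < n + 1 := lt_of_le_of_lt hn (Nat.lt_succ_self n)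
    refine ⟨t, ?_, ?_, fun v hv1 hv2 => ?_⟩
    · rw [← hzz i hi']; exact h2
    · rw [← hzz i hi']; exact h3
    · have e : R n (Function.update z i v) = R n (Function.update z' i v) := by
        apply R_congr
        intro j hj
        by_cases hji : j = i
        · subst hji; simp
        · rw [Function.update_of_ne hji, Function.update_of_ne hji, hzz j hj]
      rw [e]
      exact h4 v hv1 hv2
  -- the top sets
  let T : ℕ → Set K := fun k => {c : K | ∃ l, k ≤ l ∧ ∃ n, l ≤ n ∧ ∀ n', n ≤ n' → ∀ z : ℕ → ℤ,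
    R n' z ∈ F n' → (∀ j, j < l → z j = c.1 j) → z n ≤ c.1 n}
  have hTopen : ∀ k, IsOpen (T k) := by
    intro k
    rw [isOpen_iff_mem_nhds]
    rintro c ⟨l, hkl, n, hln, hb⟩
    refine Filter.mem_of_superset ((isOpen_cyl K c.1 (n + 1)).mem_nhds (fun _ _ => rfl)) ?_
    intro c' hc'
    refine ⟨l, hkl, n, hln, fun n' hn' z hz hag => ?_⟩
    have e := hc' n (Nat.lt_succ_self n)
    rw [e]
    refine hb n' hn' z hz (fun j hj => ?_)
    rw [hag j hj]
    exact hc' j (lt_of_lt_of_le hj (le_trans hln (Nat.le_succ n)))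
  have hTdense : ∀ k, Dense (T k) := by
    intro k c
    rw [mem_closure_iff_nhds]
    intro U hU
    obtain ⟨m, hm⟩ := exists_cyl hU
    let l := max k m
    have hS : IsCompact (K ∩ {z : ℕ → ℤ | ∀ j, j < l → z j = c.1 j}) := by
      refine hK.inter_right (isClosed_fin _ l (fun w w' h hP j hj => ?_))
      rw [h j hj]
      exact hP j hj
    obtain ⟨z0, hz0, hmax⟩ := hS.exists_isMaxOn ⟨c.1, c.2, fun _ _ => rfl⟩
      (continuous_apply (A := fun _ : ℕ => ℤ) l).continuousOn
    refine ⟨⟨z0, hz0.1⟩, hm _ (fun j hj => hz0.2 j (lt_of_lt_of_le hj (le_max_right _ _))), l,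
      le_max_left _ _, l, le_rfl, fun n' hn' z hz hag => ?_⟩
    obtain ⟨z', hz'K, hz'⟩ := (hF n' _).1 hz
    have hzz : ∀ j, j < n' + 1 → z' j = z j := fun j hj => congrFun hz' ⟨j, hj⟩
    have h1 : z' ∈ K ∩ {z : ℕ → ℤ | ∀ j, j < l → z j = c.1 j} := by
      refine ⟨hz'K, fun j hj => ?_⟩
      rw [hzz j (lt_of_lt_of_le hj (le_trans hn' (Nat.le_succ n'))), hag j hj]
      exact hz0.2 j hj
    have h2 : z' l ≤ z0 l := hmax h1
    rw [hzz l (lt_of_le_of_lt hn' (Nat.lt_succ_self n'))] at h2
    exact h2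
  -- conclusion
  have hTm : ∀ k, IsMeagre (T k)ᶜ := by
    intro k
    rw [IsMeagre, compl_compl]
    exact residual_of_dense_open (hTopen k) (hTdense k)
  have hfinal : IsMeagre V := by
    refine IsMeagre.mono ?_ (hme.union (isMeagre_iUnion hTm))
    intro c hc
    by_cases hT : ∃ k, c ∉ T k
    · obtain ⟨k, hk⟩ := hT
      exact Or.inr (Set.mem_iUnion.2 ⟨k, hk⟩)
    · left
      left
      refine ⟨hin c, fun k => ?_, hreg c hc⟩
      have : c ∈ T k := by
        by_contra hk
        exact hT ⟨k, hk⟩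
      exact this
  exact not_isMeagre_of_isOpen hVo hVne hfinal

theorem union_not_shm : ¬ StronglyHaarMeager (A0 ∪ A1) := by
  rintro ⟨B, -, hAB, K, hK, hne, hB⟩
  obtain ⟨F, hF⟩ := exists_code K hK
  apply union_large K hK hne F hF
  refine IsMeagre.mono ?_ (hB (fun n => - GG n (F n)))
  intro c hc
  refine ⟨fun n => c.1 n + GG n (F n), hAB ?_, ?_⟩
  · have hb : ∀ n, |(c.1 n + GG n (F n)) - GG n (F n)| ≤ rr n (F n) := by
      intro n
      have e : (c.1 n + GG n (F n)) - GG n (F n) = c.1 n := by ring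
      rw [e]
      exact rr_le ((hF n _).2 ⟨c.1, c.2, rfl⟩)
    have hd : ∀ n, dF n (c.1 n + GG n (F n)) = F n := fun n => dF_eq (hb n)
    have hcd : cd (fun n => c.1 n + GG n (F n)) = F := funext hd
    have hyy : yy (fun n => c.1 n + GG n (F n)) = c.1 := by
      funext n
      unfold yy
      rw [hd n]
      ring
    have hv : Valid (fun n => c.1 n + GG n (F n)) := by
      intro n
      rw [hd n]
      exact hb n
    rcases hc with hc | hc
    · left
      refine ⟨hv, ?_⟩
      rw [hcd, hyy]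
      exact hc
    · right
      refine ⟨hv, ?_⟩
      rw [hcd, hyy]
      exact hc
  · funext n
    simp

end Pool.Agent.W924.SHM
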